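import Mathlib

namespace Pool.Agent.Results.MP_98cb65_gt.Continuum

open scoped Topology

/-- `T` has iterate displacement below `B`: `d (T^ν x) x < B` for all `x` and all `ν ≥ 1`. -/
def DisplacementBelow {X : Type*} [MetricSpace X] (T : X → X) (B : ℝ) : Prop :=
  ∀ (x : X) (ν : ℕ), 1 ≤ ν → dist (T^[ν] x) x < B

/-- Property (F) of a metric space. -/
def PropertyF (X : Type*) [MetricSpace X] : Prop :=
  ∃ B : ℝ, 0 < B ∧ ∀ T : X → X, Continuous T → DisplacementBelow T B → ∃ x, T x = x

/-- Reflection of the `k`-th coordinate through the centre of the circle. -/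
noncomputable def flip (k : ℕ) (x : ℕ → Circle) : ℕ → Circle :=
  fun i => if i = k then -x i else x i

lemma flip_flip (k : ℕ) (x : ℕ → Circle) : flip k (flip k x) = x := by
  funext i
  by_cases h : i = k <;> simp [flip, h]

lemma flip_ne (k : ℕ) (x : ℕ → Circle) : flip k x ≠ x := by
  intro h
  have h1 := congrFun h k
  simp only [flip, if_true] at h1
  have h2 : ((-x k : Circle) : ℂ) = (x k : ℂ) := by rw [h1]
  rw [Circle.coe_neg] at h2
  have h3 : (x k : ℂ) = 0 := by
    have : (2 : ℂ) * (x k : ℂ) = 0 := by linear_combination -h2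
    simpa using this
  exact Circle.coe_ne_zero _ h3

lemma flip_cont (k : ℕ) : Continuous (flip k) := by
  refine continuous_pi fun i => ?_
  by_cases h : i = k
  · simp only [flip, h, if_true]
    exact (continuous_apply k).neg
  · simp only [flip, h, if_false]
    exact continuous_apply i

/-- The answer to the second question is no. -/
theorem result :
    ∃ (X : Type) (_ : MetricSpace X),
      CompactSpace X ∧ ConnectedSpace X ∧ LocallyConnectedSpace X ∧
      ¬ PropertyF X ∧
      ∀ B : ℝ, 0 < B → ∃ T : X ≃ₜ X,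
        (∀ x, T (T x) = x) ∧ DisplacementBelow T B ∧ ∀ x, T x ≠ x := by
  have hq : LocallyPathConnectedSpace Circle :=
    (Topology.IsQuotientMap.locallyPathConnectedSpace (f := Circle.exp)
      (isLocalHomeomorph_circleExp.isOpenMap.isQuotientMap Circle.exp.continuous
        Circle.exp_surjective))
  let m : MetricSpace (ℕ → Circle) := PiCountable.metricSpace
  have h4 : ∀ B : ℝ, 0 < B → ∃ T : (ℕ → Circle) ≃ₜ (ℕ → Circle),
        (∀ x, T (T x) = x) ∧ DisplacementBelow T B ∧ ∀ x, T x ≠ x := by
    intro B hB
    obtain ⟨k, hk⟩ := exists_pow_lt_of_lt_one hB (by norm_num : (2⁻¹ : ℝ) < 1)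
    refine ⟨⟨⟨flip k, flip k, flip_flip k, flip_flip k⟩, flip_cont k, flip_cont k⟩,
      flip_flip k, ?_, flip_ne k⟩
    intro x ν _
    have hit : (flip k)^[ν] x = x ∨ (flip k)^[ν] x = flip k x := by
      clear * -
      induction ν with
      | zero => left; rfl
      | succ n ih =>
        rw [Function.iterate_succ_apply']
        rcases ih with h | h
        · right; rw [h]
        · left; rw [h, flip_flip]
    have hd : dist ((flip k)^[ν] x) x < B := by
      rcases hit with h | h
      · rw [h, dist_self]; exact hB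
      · rw [h]
        refine lt_of_le_of_lt ?_ hk
        show (∑' i, min ((2⁻¹ : ℝ) ^ Encodable.encode i) (dist (flip k x i) (x i))) ≤ _
        rw [tsum_eq_single k]
        · exact min_le_left _ _
        · intro i hi
          simp [flip, hi]
    exact hd
  refine ⟨ℕ → Circle, m, ?_, ?_, ?_, ?_, h4⟩
  · exact (inferInstance : CompactSpace (ℕ → Circle))
  · exact (inferInstance : ConnectedSpace (ℕ → Circle))
  · exact (inferInstance : LocallyConnectedSpace (ℕ → Circle))
  · rintro ⟨B, hB, h⟩
    obtain ⟨T, _, hT2, hT3⟩ := h4 B hB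
    obtain ⟨x, hx⟩ := h T T.continuous hT2
    exact hT3 x hx

end Pool.Agent.Results.MP_98cb65_gt.Continuum
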